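import Pool.Agent.Q67.TP.LDefs

/-!
# Systems of Hodge classes: definitions
-/

open CategoryTheory AlgebraicGeometry

universe u

namespace Pool.Agent.Q67.TA.S

open Pool.Agent.H914 Pool.Agent.H914.VarClass Pool.Agent.H914.VarClass.Obj
  Pool.Agent.H914.WeilCohomology
open Pool.Agent.Y121.AHS hiding Maps
open Pool.Agent.Q67.TP.S

variable {k : Type u} [Field k] {𝒱 : VarClass k} {ops : CycleOps 𝒱}

/-- `C` is a system of Hodge classes: all classes of algebraic cycles belong to `C`, all elements of
`C` are Hodge classes, and `C` is stable under products, pull-backs and push-forwards. -/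
def IsSys (T : HodgeTheory ops) (C : Classes T) : Prop :=
  (∀ X, alg T X ⊆ C X ∧ C X ⊆ hodge T X ∧ Stable mu (C X)) ∧
    ∀ (X Y : 𝒱.Obj) (f : X ⟶ Y), Maps (pull f) (C Y) (C X) ∧ Maps (push f) (C X) (C Y)

/-- All linear combinations of elements of `R` which are of degree `2 j` for some `j` belong
to `R`. -/
def IsSaturated {T : HodgeTheory ops} (R : Classes T) : Prop :=
  ∀ X j c, c ∈ Submodule.span (Co T) (R X) → RDeg (2 * j) c → c ∈ R X

end Pool.Agent.Q67.TA.S
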