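import Pool.Agent.Q67.TP.LDefs

/-!
# Absolutely Hodge classes: definitions
-/

open CategoryTheory AlgebraicGeometry

universe u

namespace Pool.Agent.Q67.TA.R

open Pool.Agent.H914 Pool.Agent.H914.VarClass Pool.Agent.H914.VarClass.Obj
  Pool.Agent.H914.WeilCohomology
open Pool.Agent.Y121.AHS hiding Maps Conjugates IsAbsHodge
open Pool.Agent.Q67.TP.S

/-- The relation `r` is stable under the operations `m` and `m'`. -/
def Compatible {G H : Type} (m : G → G → G) (m' : H → H → H) (r : G → H → Prop) : Prop :=
  ∀ a a' b b', r a a' → r b b' → r (m a b) (m' a' b')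

/-- The element `q a + b`. -/
def lin {L G : Type} [Field L] [AddCommGroup G] [Module L G] (q : ℚ) (a b : G) : G :=
  (q : L) • a + b

variable {k : Type u} [Field k] {𝒱 : VarClass k} {ops : CycleOps 𝒱}

/-- Relations between the rational cohomology classes of two Hodge theories, for all varieties. -/
abbrev Relations (T T' : HodgeTheory ops) : Type (u + 1) :=
  ∀ X : 𝒱.Obj, RH T X → RH T' X → Prop

/-- The relations are stable under rational linear combinations, products, pull-backs and
push-forwards, and the classes of an algebraic cycle in the two theories are related. -/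
structure IsConjugation {T T' : HodgeTheory ops} (r : Relations T T') : Prop where
  lin : ∀ X q, Compatible (lin (L := Co T) q) (lin (L := Co T') q) (r X)
  mul : ∀ X, Compatible mu mu (r X)
  pull : ∀ (X Y : 𝒱.Obj) (f : X ⟶ Y) a a', r Y a a' → r X (pull f a) (pull f a')
  push : ∀ (X Y : 𝒱.Obj) (f : X ⟶ Y) a a', r X a a' → r Y (push f a) (push f a')
  cyc : ∀ X j z, X.IsCyc j z → r X (T.W.cl X z) (T'.W.cl X z)

/-- Conjugates of a Hodge theory: a family of Hodge theories `T' i`, each with a relation between
classes of `T` and classes of `T' i` (in the use: the two classes have the same image under all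
comparison isomorphisms given by de Rham and étale cohomology). -/
structure Conjugates (T : HodgeTheory ops) where
  /-- the index set of the conjugate theories -/
  ι : Type u
  /-- the conjugate theories -/
  T' : ι → HodgeTheory ops
  /-- the relations -/
  rel : ∀ i, Relations T (T' i)
  conj : ∀ i, IsConjugation (rel i)

variable {T : HodgeTheory ops}

/-- The absolutely Hodge classes of degree `2 j`: the Hodge classes which are related to a Hodge
class of each conjugate theory. -/
def IsAbsHodge (D : Conjugates T) (X : 𝒱.Obj) (j : ℕ) (c : RH T X) : Prop :=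
  IsHodge T X j c ∧ ∀ i, ∃ c' : RH (D.T' i) X, IsHodge (D.T' i) X j c' ∧ D.rel i X c c'

/-- The absolutely Hodge classes. -/
def absHodge (D : Conjugates T) : Classes T := fun X => {c | ∃ j, IsAbsHodge D X j c}

end Pool.Agent.Q67.TA.R
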