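import Pool.Agent.Q67.TA.Sys
import Pool.Agent.Q67.TA.RelDefs

/-!
# The index law for the absolutely Hodge classes and the fourth power
-/

set_option autoImplicit false
set_option linter.unusedSectionVars false

open CategoryTheory AlgebraicGeometry

universe u v w

namespace Pool.Agent.Q67.TA.R

open Pool.Agent.H914 Pool.Agent.H914.VarClass Pool.Agent.H914.VarClass.Obj
  Pool.Agent.H914.WeilCohomology
open Pool.Agent.Y133.Half hiding prj extOp_xp tateDim
open Pool.Agent.Y121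
open Pool.Agent.Y121.AHS hiding Maps Conjugates IsAbsHodge isAbsHodge_iff
open Pool.Agent.Q67.TP Pool.Agent.Q67.TP.S
open Pool.Agent.Q67.TA

variable {k : Type u} [Field k] {𝒱 : VarClass k} {ops : CycleOps 𝒱} {T T' : HodgeTheory ops}
  {X Y Z : 𝒱.Obj}

section conj

variable {r : Relations T T'} (h : IsConjugation r)

include h

lemma isCyc_zero (X : 𝒱.Obj) : X.IsCyc 0 0 := by
  intro x hx
  exact absurd rfl hx

lemma rel_zero : r X (dc 0) (dc 0) := by
  have h1 := h.cyc X 0 0 (isCyc_zero h X)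
  rw [map_zero, map_zero] at h1
  exact h1

lemma rel_add {a b : RH T X} {a' b' : RH T' X} (ha : r X a a') (hb : r X b b') :
    r X (a + b) (a' + b') := by
  have h1 := h.lin X 1 a a' b b' ha hb
  have e1 : lin (L := Co T) 1 a b = a + b := by rw [lin, Rat.cast_one, one_smul]
  have e2 : lin (L := Co T') 1 a' b' = a' + b' := by rw [lin, Rat.cast_one, one_smul]
  rw [e1, e2] at h1
  exact h1

lemma rel_smul (q : ℚ) {a : RH T X} {a' : RH T' X} (ha : r X a a') :
    r X ((q : Co T) • a) ((q : Co T') • a') := by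
  have h1 := h.lin X q a a' 0 0 ha (rel_zero h)
  have e1 : lin (L := Co T) q a 0 = (q : Co T) • a := by rw [lin, add_zero]
  have e2 : lin (L := Co T') q a' 0 = (q : Co T') • a' := by rw [lin, add_zero]
  rw [e1, e2] at h1
  exact h1

end conj

/-- The absolutely Hodge classes as a system. -/
noncomputable def relPred (D : Conjugates T) : ClassPred (VV T) where
  P X j c := (AH.hodgePred (toH T)).P X j c ∧ ∀ i, ∃ c' : (VV (D.T' i)).H X,
    (AH.hodgePred (toH (D.T' i))).P X j c' ∧ D.rel i X (dc c) (dc c')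
  gr h := (AH.hodgePred (toH T)).gr h.1
  zero := ⟨(AH.hodgePred (toH T)).zero, fun i =>
    ⟨0, (AH.hodgePred (toH (D.T' i))).zero, rel_zero (D.conj i)⟩⟩
  add ha hb := ⟨(AH.hodgePred (toH T)).add ha.1 hb.1, fun i => by
    obtain ⟨a', h1, h2⟩ := ha.2 i
    obtain ⟨b', h3, h4⟩ := hb.2 i
    exact ⟨a' + b', (AH.hodgePred (toH (D.T' i))).add h1 h3, rel_add (D.conj i) h2 h4⟩⟩
  smul r _ h := ⟨(AH.hodgePred (toH T)).smul r h.1, fun i => by
    obtain ⟨a', h1, h2⟩ := h.2 i
    obtain ⟨q, rfl⟩ := T.rat r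
    exact ⟨(q : (VV (D.T' i)).K) • a', (AH.hodgePred (toH (D.T' i))).smul _ h1,
      rel_smul (D.conj i) q h2⟩⟩
  cl hz := ⟨(AH.hodgePred (toH T)).cl hz, fun i =>
    ⟨_, (AH.hodgePred (toH (D.T' i))).cl hz, (D.conj i).cyc _ _ _ hz⟩⟩
  mul ha hb := ⟨(AH.hodgePred (toH T)).mul ha.1 hb.1, fun i => by
    obtain ⟨a', h1, h2⟩ := ha.2 i
    obtain ⟨b', h3, h4⟩ := hb.2 i
    exact ⟨a' * b', (AH.hodgePred (toH (D.T' i))).mul h1 h3, (D.conj i).mul _ _ _ _ _ h2 h4⟩⟩
  map f _ _ h := ⟨(AH.hodgePred (toH T)).map f h.1, fun i => by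
    obtain ⟨a', h1, h2⟩ := h.2 i
    exact ⟨_, (AH.hodgePred (toH (D.T' i))).map f h1, (D.conj i).pull _ _ f _ _ h2⟩⟩
  push f _ _ hl _ h := ⟨(AH.hodgePred (toH T)).push f hl h.1, fun i => by
    obtain ⟨a', h1, h2⟩ := h.2 i
    exact ⟨_, (AH.hodgePred (toH (D.T' i))).push f hl h1, (D.conj i).push _ _ f _ _ h2⟩⟩

lemma rp_rel (D : Conjugates T) : Rp (absHodge D) (relPred D) where
  of {_ _} hc := hc
  sp {_ j _} hc := Submodule.subset_span ⟨j, hc⟩

/-- **The index of the absolutely Hodge classes and the fourth power.** -/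
theorem abs_law (D : Conjugates T) (X : 𝒱.Obj) [Nontrivial (RH T X)] {u : ROp T X}
    (hu : PolarisedBy (absHodge D) X u) (ho : OddIn (absHodge D) X) :
    ∃ N : ℕ∞, Law (hodge T) (absHodge D) X N ∧ FourFor (hodge T) (absHodge D) X N :=
  S.law_hodge (rp_rel D) (fun h => h.1) hu ho

end Pool.Agent.Q67.TA.R
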