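import Pool.Agent.Q67.TP.LConv
import Pool.Agent.Q67.TA.Defs

/-!
# Systems of Hodge classes
-/

set_option autoImplicit false
set_option linter.unusedSectionVars false

open CategoryTheory AlgebraicGeometry TensorProduct Filter Topology

universe u v w

namespace Pool.Agent.Q67.TA.S

open Pool.Agent.H914 Pool.Agent.H914.VarClass Pool.Agent.H914.VarClass.Obj
  Pool.Agent.H914.WeilCohomology
open Pool.Agent.Y133.Half hiding prj extOp_xp tateDim
open Pool.Agent.Q67.Det Pool.Agent.Q67.TK
open Pool.Agent.Q67.TG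
open Pool.Agent.Y121 Pool.Agent.Y121.AHS
open Pool.Agent.Q67.TP Pool.Agent.Q67.TP.S

variable {k : Type u} [Field k] {𝒱 : VarClass k} {ops : CycleOps 𝒱} {T : HodgeTheory ops}
  {X Y Z : 𝒱.Obj}

section sys

variable {C : Classes T} (hC : IsSys T C)

include hC

lemma sys_mul {a b : (VV T).H X} (ha : dc a ∈ Submodule.span (Co T) (C X))
    (hb : dc b ∈ Submodule.span (Co T) (C X)) :
    dc (a * b) ∈ Submodule.span (Co T) (C X) := by
  have key : ∀ a ∈ Submodule.span (Co T) (C X), ∀ b ∈ Submodule.span (Co T) (C X),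
      dc (cc a * cc b) ∈ Submodule.span (Co T) (C X) := by
    intro a ha b hb
    induction ha using Submodule.span_induction with
    | mem a ha =>
      induction hb using Submodule.span_induction with
      | mem b hb => exact Submodule.subset_span ((hC.1 X).2.2 _ ha _ hb)
      | zero =>
        have h : dc (cc a * cc (0 : RH T X)) = (0 : RH T X) := mul_zero (cc a)
        rw [h]; exact Submodule.zero_mem _
      | add x y _ _ hx hy =>
        have h : dc (cc a * cc (x + y)) = dc (cc a * cc x) + dc (cc a * cc y) :=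
          mul_add (cc a) (cc x) (cc y)
        rw [h]; exact Submodule.add_mem _ hx hy
      | smul r x _ hx =>
        have h : dc (cc a * cc (r • x)) = r • dc (cc a * cc x) :=
          mul_smul_comm (show (VV T).K from r) (cc a) (cc x)
        rw [h]; exact Submodule.smul_mem _ _ hx
    | zero =>
      have h : dc (cc (0 : RH T X) * cc b) = (0 : RH T X) := zero_mul (cc b)
      rw [h]; exact Submodule.zero_mem _
    | add x y _ _ hx hy =>
      have h : dc (cc (x + y) * cc b) = dc (cc x * cc b) + dc (cc y * cc b) :=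
        add_mul (cc x) (cc y) (cc b)
      rw [h]; exact Submodule.add_mem _ hx hy
    | smul r x _ hx =>
      have h : dc (cc (r • x) * cc b) = r • dc (cc x * cc b) :=
        smul_mul_assoc (show (VV T).K from r) (cc x) (cc b)
      rw [h]; exact Submodule.smul_mem _ _ hx
  exact key _ ha _ hb

lemma sys_map (f : X ⟶ Y) {a : (VV T).H Y} (ha : dc a ∈ Submodule.span (Co T) (C Y)) :
    dc ((VV T).map f a) ∈ Submodule.span (Co T) (C X) := by
  have key : ∀ a ∈ Submodule.span (Co T) (C Y),
      dc ((VV T).map f (cc a)) ∈ Submodule.span (Co T) (C X) := by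
    intro a ha
    induction ha using Submodule.span_induction with
    | mem a ha => exact Submodule.subset_span ((hC.2 X Y f).1 _ ha)
    | zero =>
      have h : dc ((VV T).map f (cc (0 : RH T Y))) = (0 : RH T X) :=
        map_zero ((VV T).map f)
      rw [h]; exact Submodule.zero_mem _
    | add x y _ _ hx hy =>
      have h : dc ((VV T).map f (cc (x + y))) =
          dc ((VV T).map f (cc x)) + dc ((VV T).map f (cc y)) :=
        map_add ((VV T).map f) (cc x) (cc y)
      rw [h]; exact Submodule.add_mem _ hx hy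
    | smul r x _ hx =>
      have h : dc ((VV T).map f (cc (r • x))) = r • dc ((VV T).map f (cc x)) :=
        map_smul ((VV T).map f) (show (VV T).K from r) (cc x)
      rw [h]; exact Submodule.smul_mem _ _ hx
  exact key _ ha

lemma sys_push (f : X ⟶ Y) {a : (VV T).H X} (ha : dc a ∈ Submodule.span (Co T) (C X)) :
    dc ((VV T).push f a) ∈ Submodule.span (Co T) (C Y) := by
  have key : ∀ a ∈ Submodule.span (Co T) (C X),
      dc ((VV T).push f (cc a)) ∈ Submodule.span (Co T) (C Y) := by
    intro a ha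
    induction ha using Submodule.span_induction with
    | mem a ha => exact Submodule.subset_span ((hC.2 X Y f).2 _ ha)
    | zero =>
      have h : dc ((VV T).push f (cc (0 : RH T X))) = (0 : RH T Y) :=
        map_zero ((VV T).push f)
      rw [h]; exact Submodule.zero_mem _
    | add x y _ _ hx hy =>
      have h : dc ((VV T).push f (cc (x + y))) =
          dc ((VV T).push f (cc x)) + dc ((VV T).push f (cc y)) :=
        map_add ((VV T).push f) (cc x) (cc y)
      rw [h]; exact Submodule.add_mem _ hx hy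
    | smul r x _ hx =>
      have h : dc ((VV T).push f (cc (r • x))) = r • dc ((VV T).push f (cc x)) :=
        map_smul ((VV T).push f) (show (VV T).K from r) (cc x)
      rw [h]; exact Submodule.smul_mem _ _ hx
  exact key _ ha

/-- The system as a system in the library. -/
noncomputable def sysOf : ClassPred (VV T) where
  P X j c := dc c ∈ Submodule.span (Co T) (C X) ∧ c ∈ (VV T).gr X (2 * j)
  gr h := h.2
  zero := ⟨Submodule.zero_mem _, Submodule.zero_mem _⟩
  add ha hb := ⟨Submodule.add_mem _ ha.1 hb.1, Submodule.add_mem _ ha.2 hb.2⟩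
  smul r _ h := ⟨Submodule.smul_mem _ r h.1, Submodule.smul_mem _ r h.2⟩
  cl {X j z} hz := ⟨Submodule.subset_span ((hC.1 X).1 ⟨j, z, hz, rfl⟩), T.W.cl_mem hz⟩
  mul ha hb := ⟨sys_mul hC ha.1 hb.1, by
    rw [mul_add]; exact (VV T).mul_mem ha.2 hb.2⟩
  map f _ _ h := ⟨sys_map hC f h.1, (VV T).map_mem f h.2⟩
  push {X Y} f {j l} hl {a} h := ⟨sys_push hC f h.1, AH.push_gr f hl h.2⟩

lemma sys_hodge {Z : 𝒱.Obj} {j : ℕ} {c : (VV T).H Z} (hc : (sysOf hC).P Z j c) :
    (AH.hodgePred (toH T)).P Z j c := by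
  have h0 : Rp (hodge T) (AH.hodgePred (toH T)) :=
    ⟨fun {Z c} hc => hc, fun {Z j c} hc => Submodule.subset_span ⟨j, hc⟩⟩
  have h1 : c ∈ (AH.hodgePred (toH T)).sys.C Z :=
    h0.span_iff.1 (Submodule.span_mono (fun x hx => (hC.1 Z).2.1 hx) hc.1)
  have h2 := ClassPred.sp_proj (Q := AH.hodgePred (toH T)) h1 j
  rwa [proj_same _ hc.2] at h2

lemma rp_sys : Rp C (sysOf hC) where
  of {Z c} hc := by
    obtain ⟨j, hj⟩ := (hC.1 Z).2.1 hc
    exact ⟨j, Submodule.subset_span hc, hj.1⟩
  sp hc := hc.1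

end sys

lemma ex_hodge' (Z : 𝒱.Obj) (c : RH T Z) : c ∈ hodge T Z ↔ ∃ j, (AH.hodgePred (toH T)).P Z j (cc c) :=
  Iff.rfl

lemma rp_hodge : Rp (hodge T) (AH.hodgePred (toH T)) :=
  ⟨fun {Z c} hc => hc, fun {Z j c} hc => Submodule.subset_span ⟨j, hc⟩⟩

/-- The polarisation data. -/
noncomputable def polQ {C : Classes T} {Q : ClassPred (VV T)} (hC : Rp C Q)
    (hQ : ∀ {Z : 𝒱.Obj} {j : ℕ} {c : (VV T).H Z}, Q.P Z j c → (AH.hodgePred (toH T)).P Z j c)
    {u : ROp T X} (h : PolarisedBy C X u) (ho : OddIn C X) : PolData (toH T) Q.sys X where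
  le _ := ClassPred.sys_le (fun h => hQ h) _
  uu := oo u
  mem := hC.op_iff.1 h.1
  odd := odd_of hC ho
  pol := pol_of (T := T) (X := X) fun C hC r c a => h.2 C hC r c a

/-- **The law for the Hodge classes over a system, and the fourth power.** -/
theorem law_hodge {C : Classes T} {Q : ClassPred (VV T)} (hC : Rp C Q)
    (hQ : ∀ {Z : 𝒱.Obj} {j : ℕ} {c : (VV T).H Z}, Q.P Z j c → (AH.hodgePred (toH T)).P Z j c)
    {u : ROp T X} (h : PolarisedBy C X u) (ho : OddIn C X) [Nontrivial (RH T X)] :
    ∃ N, Law (hodge T) C X N ∧ FourFor (hodge T) C X N := by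
  have hnt : Nontrivial ((VV T).H X) := ‹Nontrivial (RH T X)›
  obtain ⟨N, hN⟩ := law_of (X := X) ex_hodge' hC hQ (polQ hC hQ h ho)
  exact ⟨N, hN, four_of (X := X) ex_hodge' hC hQ (fun h => h) (closed_hodge X)
    (polQ hC hQ h ho) hN⟩

/-- **The law for one system over another.** -/
theorem law_sys {R C : Classes T} (hR : IsSys T R) (hC : IsSys T C) (hCR : ∀ Z, C Z ⊆ R Z)
    {u : ROp T X} (h : PolarisedBy C X u) (ho : OddIn C X) [Nontrivial (RH T X)]
    (hs : IsSaturated R) :
    ∃ N, Law R C X N := by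
  have hnt : Nontrivial ((VV T).H X) := ‹Nontrivial (RH T X)›
  have hR' : ∀ (Z : 𝒱.Obj) (c : RH T Z), c ∈ R Z ↔ ∃ j, (sysOf hR).P Z j (cc c) := by
    intro Z c
    constructor
    · exact (rp_sys hR).of
    · rintro ⟨j, hj⟩
      exact hs Z j c hj.1 hj.2
  exact law_of (X := X) hR' (rp_sys hC) (fun {Z j c} hc =>
    ⟨Submodule.span_mono (fun x hx => hCR Z hx) hc.1, hc.2⟩)
    (polQ (rp_sys hC) (fun h => sys_hodge hC h) h ho)

end Pool.Agent.Q67.TA.S
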