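import Pool.Agent.Q67.TP.LDefs

/-!
# Families of varieties and algebraic classes on the fibres: definitions
-/

open CategoryTheory AlgebraicGeometry

universe u

namespace Pool.Agent.Q67.TA.S

open Pool.Agent.H914 Pool.Agent.H914.VarClass Pool.Agent.H914.VarClass.Obj
  Pool.Agent.H914.WeilCohomology
open Pool.Agent.Y121.AHS hiding Maps
open Pool.Agent.Q67.TP.S

variable {k : Type u} [Field k] {𝒱 : VarClass k} {ops : CycleOps 𝒱}

/-- The classes in `C` form a stable system: `C` contains the classes of algebraic cycles, all
linear combinations of elements of `C` which are of some degree `2 j` belong to `C`, and `C` is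
stable under products, pull-backs and push-forwards. -/
structure IsStable (T : HodgeTheory ops) (C : Classes T) : Prop where
  alg : ∀ X, alg T X ⊆ C X
  comb : ∀ X j c, c ∈ Submodule.span (Co T) (C X) → RDeg (2 * j) c → c ∈ C X
  mul : ∀ X, Stable mu (C X)
  pull : ∀ (X Y : 𝒱.Obj) (f : X ⟶ Y), Maps (pull f) (C Y) (C X)
  push : ∀ (X Y : 𝒱.Obj) (f : X ⟶ Y), Maps (push f) (C X) (C Y)

/-- Classes on the fibres of families: `inv X` are the classes of even degree on the fibre of `X`
at the point `o` which are invariant under the monodromy, and `algAt s X` are the classes of even
degree on this fibre which are transported (along a fixed path from `o` to `s`) to algebraic classes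
on the fibre at the point `s`. All these sets of classes are stable, and algebraic classes on the
fibre at `o` are Hodge classes. -/
structure IsFamily {T : HodgeTheory ops} {S : Type} (o : S) (inv : Classes T)
    (algAt : S → Classes T) : Prop where
  inv_stable : IsStable T inv
  alg_stable : ∀ s, IsStable T (algAt s)
  alg_hodge : ∀ X, algAt o X ⊆ hodge T X

variable {T : HodgeTheory ops}

/-- The classes which belong to `C s` for all `s` in `S`. -/
def meetAll {S : Type} (C : S → Classes T) : Classes T := fun X => {c | ∀ s, c ∈ C s X}

end Pool.Agent.Q67.TA.S
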