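import Pool.Agent.Q67.TA.Sys
import Pool.Agent.Q67.TA.VDefs

/-!
# The law for classes which are algebraic on the fibres of a family
-/

set_option autoImplicit false
set_option linter.unusedSectionVars false

open CategoryTheory AlgebraicGeometry

universe u v w

namespace Pool.Agent.Q67.TA.S

open Pool.Agent.H914 Pool.Agent.H914.VarClass Pool.Agent.H914.VarClass.Obj
  Pool.Agent.H914.WeilCohomology
open Pool.Agent.Y121 Pool.Agent.Y121.AHS
open Pool.Agent.Q67.TP Pool.Agent.Q67.TP.S

variable {k : Type u} [Field k] {𝒱 : VarClass k} {ops : CycleOps 𝒱} {T : HodgeTheory ops}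
  {X Y Z : 𝒱.Obj}

lemma span_mono' {R C : Classes T} (h : ∀ Z, R Z ⊆ C Z) {c : RH T X}
    (hc : c ∈ Submodule.span (Co T) (R X)) : c ∈ Submodule.span (Co T) (C X) :=
  Submodule.span_mono (h X) hc

lemma stable_meet {R C : Classes T} (hR : IsStable T R) (hC : IsStable T C) :
    IsStable T (meet R C) where
  alg X := fun _ hx => ⟨hR.alg X hx, hC.alg X hx⟩
  comb X j c hc hd := ⟨hR.comb X j c (span_mono' (fun _ _ hx => hx.1) hc) hd,
    hC.comb X j c (span_mono' (fun _ _ hx => hx.2) hc) hd⟩
  mul X := fun a ha b hb => ⟨hR.mul X a ha.1 b hb.1, hC.mul X a ha.2 b hb.2⟩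
  pull X Y f := fun x hx => ⟨hR.pull X Y f x hx.1, hC.pull X Y f x hx.2⟩
  push X Y f := fun x hx => ⟨hR.push X Y f x hx.1, hC.push X Y f x hx.2⟩

lemma stable_all {S : Type} {C : S → Classes T} (hC : ∀ s, IsStable T (C s)) :
    IsStable T (meetAll C) where
  alg X := fun _ hx s => (hC s).alg X hx
  comb X j c hc hd := fun s => (hC s).comb X j c
    (span_mono' (R := meetAll C) (C := C s) (fun _ _ hx => hx s) hc) hd
  mul X := fun a ha b hb s => (hC s).mul X a (ha s) b (hb s)
  pull X Y f := fun x hx s => (hC s).pull X Y f x (hx s)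
  push X Y f := fun x hx s => (hC s).push X Y f x (hx s)

lemma sys_of_stable {C : Classes T} (hC : IsStable T C) (h : ∀ Z, C Z ⊆ hodge T Z) : IsSys T C :=
  ⟨fun X => ⟨hC.alg X, h X, hC.mul X⟩, fun X Y f => ⟨hC.pull X Y f, hC.push X Y f⟩⟩

/-- **The law for two stable systems of Hodge classes.** -/
theorem law_stable {R C : Classes T} (hR : IsStable T R) (hC : IsStable T C)
    (hRH : ∀ Z, R Z ⊆ hodge T Z) (hCR : ∀ Z, C Z ⊆ R Z)
    {u : ROp T X} (h : PolarisedBy C X u) (ho : OddIn C X) [Nontrivial (RH T X)] :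
    ∃ N, Law R C X N :=
  law_sys (sys_of_stable hR hRH) (sys_of_stable hC fun Z _ hx => hRH Z (hCR Z hx)) hCR h ho
    hR.comb

/-- **The variational law.** -/
theorem variational {S : Type} {o : S} {inv : Classes T} {algAt : S → Classes T}
    (hF : IsFamily o inv algAt) (P : S → Prop) {u : ROp T X}
    (h : PolarisedBy (meet (meet inv (algAt o)) (meetAll fun s : {s // P s} => algAt s)) X u)
    (ho : OddIn (meet (meet inv (algAt o)) (meetAll fun s : {s // P s} => algAt s)) X)
    [Nontrivial (RH T X)] :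
    ∃ N, Law (meet inv (algAt o))
      (meet (meet inv (algAt o)) (meetAll fun s : {s // P s} => algAt s)) X N := by
  have h1 : IsStable T (meet inv (algAt o)) := stable_meet hF.inv_stable (hF.alg_stable o)
  have h2 : IsStable T (meetAll fun s : {s // P s} => algAt s) :=
    stable_all fun s => hF.alg_stable s
  exact law_stable h1 (stable_meet h1 h2) (fun Z _ hx => hF.alg_hodge Z hx.2) (fun _ _ hx => hx.1) h ho

end Pool.Agent.Q67.TA.S
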